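import Pool.Agent.helper10.FL.SpecV

/-!
# MP_70a088_an, full lattice, part V: row RAT: the ratio is infinite
-/

set_option autoImplicit false

open Complex Metric Set Filter Topology MeasureTheory
open STA

noncomputable section

namespace FL

theorem RAT (hRRB : RRB_stmt) (hINJ : INJ_stmt) (hLXB : LXB_stmt) (hR1L : R1L_stmt) (hPVF : STA.PVF_stmt) : RAT_stmt := by
  intro Y₀ U y r e s a m ζ k b hT
  have hS := hT.th.s2.sq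
  obtain ⟨hr1, hr2, -, hr4, -⟩ := hRRB
  by_contra hcon
  -- a lower bound for the ratio
  have h1 : ∃ ε > (0 : ℝ), ∀ᶠ j in (U : Filter ℕ), ε ≤ ‖T (PVs (y j) (r j) Y₀) (a j) 0‖ / ‖T (PVs (y j) (r j) Y₀) (b j) 0‖ := by
    by_contra hn
    push Not at hn
    apply hcon
    rw [Metric.tendsto_nhds]
    intro ε hε
    have h2 := hn ε hε
    filter_upwards [h2] with j hj
    rw [Real.dist_eq, sub_zero, abs_of_nonneg (div_nonneg (norm_nonneg _) (norm_nonneg _))]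
    exact hj
  obtain ⟨ε, hε, h2⟩ := h1
  have hrs : ∀ i : ℕ, rl 0 (1 / 2) ≤ rs i ∧ 1 / 48 ≤ rs i ∧ rs i ≤ 1 / 24 := by
    intro i
    have hp : (0 : ℝ) < (1 / 2) ^ i := by positivity
    have hp1 : ((1 : ℝ) / 2) ^ i ≤ 1 := pow_le_one₀ (by norm_num) (by norm_num)
    obtain ⟨h3, h4⟩ := hr2 0 ((1 - (1 / 2) ^ i) / 2) (by linarith) (by linarith)
    refine ⟨?_, h3.le, h4⟩
    show rl 0 (1 / 2) ≤ rl 0 ((1 - (1 / 2) ^ i) / 2)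
    unfold rl
    have h5 : (0 : ℝ) < (1 / 2) ^ 0 / 96 := by norm_num
    nlinarith
  have hrr : 1 / 48 ≤ rr 0 ∧ rr 0 ≤ 1 / 24 := ⟨(hr1 0).1.le, (hr1 0).2.1⟩
  -- comparison at `ζ`
  have hcmp : ∀ᶠ j in (U : Filter ℕ), ‖T (PVs (y j) (r j) Y₀) (b j) (ζ j)‖ ≤ (2 / ε) * ‖T (PVs (y j) (r j) Y₀) (a j) (ζ j)‖ := by
    filter_upwards [h2, hT.sw, hS.np, hS.sl] with j hj hsw hnp hsl
    have hok : SOk (PVs (y j) (r j) Y₀) := (hPVF Y₀ (y j) (r j) (hS.r0 j)).2.2.1 hS.ok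
    have hζ : ‖ζ j‖ ≤ 1 / 10 ^ 6 := hS.ze j
    obtain ⟨-, -, i3⟩ := hINJ _ _ _ _ _ _ _ hok hnp (rr 0) (a j) hrr.1 hrr.2 hsl.rt
    obtain ⟨-, -, i4⟩ := hINJ _ _ _ _ _ _ _ hok hnp (rs (k j)) (b j) (hrs (k j)).2.1 (hrs (k j)).2.2 hsw.rt
    have m1 : ζ j ∈ ball (0 : ℂ) (rr 0) := by
      rw [mem_ball_zero_iff]
      have := hrr.1
      norm_num at hζ ⊢
      linarith
    have m2 : ζ j ∈ ball (0 : ℂ) (rs (k j)) := by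
      rw [mem_ball_zero_iff]
      have := (hrs (k j)).2.1
      norm_num at hζ ⊢
      linarith
    obtain ⟨j1, j2⟩ := i3 _ m1
    obtain ⟨j3, j4⟩ := i4 _ m2
    have hb0 : ‖T (PVs (y j) (r j) Y₀) (b j) 0‖ ≤ (1 / ε) * ‖T (PVs (y j) (r j) Y₀) (a j) 0‖ := by
      rcases (norm_nonneg (T (PVs (y j) (r j) Y₀) (b j) 0)).lt_or_eq with h | h
      · rw [le_div_iff₀ h] at hj
        rw [one_div, inv_mul_eq_div, le_div_iff₀ hε]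
        linarith
      · rw [← h]
        positivity
    have k1 : ‖T (PVs (y j) (r j) Y₀) (a j) 0‖ ≤ (1000 / 999) * ‖T (PVs (y j) (r j) Y₀) (a j) (ζ j)‖ := by linarith
    have k2 : (1 / ε) * ‖T (PVs (y j) (r j) Y₀) (a j) 0‖ ≤ (1 / ε) * ((1000 / 999) * ‖T (PVs (y j) (r j) Y₀) (a j) (ζ j)‖) :=
      mul_le_mul_of_nonneg_left k1 (by positivity)
    have k3 : 0 ≤ (1 / ε) * ‖T (PVs (y j) (r j) Y₀) (a j) (ζ j)‖ := by positivity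
    calc ‖T (PVs (y j) (r j) Y₀) (b j) (ζ j)‖ ≤ 1001 / 1000 * ((1 / ε) * ((1000 / 999) * ‖T (PVs (y j) (r j) Y₀) (a j) (ζ j)‖)) := by linarith
      _ = 1001 / 999 * ((1 / ε) * ‖T (PVs (y j) (r j) Y₀) (a j) (ζ j)‖) := by ring
      _ ≤ 2 * ((1 / ε) * ‖T (PVs (y j) (r j) Y₀) (a j) (ζ j)‖) := by nlinarith
      _ = (2 / ε) * ‖T (PVs (y j) (r j) Y₀) (a j) (ζ j)‖ := by ring
  have hRT : ∀ᶠ j in (U : Filter ℕ), RT (PVs (y j) (r j) Y₀) (rl 0 (1 / 2)) (b j) := by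
    filter_upwards [hT.sw] with j hsw
    exact hr4 _ _ _ _ (hrs (k j)).1 hsw.rt
  obtain ⟨l1, -, -⟩ := hLXB Y₀ U y r _ e s 0 a m (fun _ => 0) a ζ hS
  obtain ⟨ν, hν, -⟩ := l1 b (2 / ε) (1 / 2) (by norm_num) (by norm_num) hRT hcmp
  obtain ⟨k₀, hk₀⟩ := hR1L Y₀ U y r _ e s 0 a m (fun _ => 0) a ζ hS hT.th.re b ν hν
  have hsm := hS.sm
  have hsm2 : Tendsto (fun j => (k₀ : ℝ) * ((2 : ℝ) ^ (0 : ℕ) * ‖T (PVs (y j) (r j) Y₀) (a j) 0‖)) U (𝓝 0) := by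
    have := hsm.const_mul (k₀ : ℝ)
    rwa [mul_zero] at this
  have hsm3 := hsm2.eventually (Iio_mem_nhds (show (0 : ℝ) < 1 / 10 ^ 7 by norm_num))
  obtain ⟨j, hj1, hj2, hj3⟩ := (hk₀.and (hsm3.and hT.sw)).exists
  apply hj3.ns
  refine ⟨k₀, hj1, ?_⟩
  have h5 : (k₀ : ℝ) * ((2 : ℝ) ^ (0 : ℕ) * ‖T (PVs (y j) (r j) Y₀) (a j) 0‖) < 1 / 10 ^ 7 := hj2
  rw [pow_zero, one_mul] at h5
  exact h5.le

end FL
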